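import Pool.Agent.W203.BE.Stms

/-!
# Local smoothing for the wave equation on average over dilations of the data: blueprint

`T`, `gn`, `ga`, `al` are the Gaussian multipliers of `Pool.Agent.W203.BE.Defs`.
Every part `S_X` below is a separate exact statement.
-/

set_option autoImplicit false

open MeasureTheory Set Complex
open scoped ENNReal

namespace Pool.Agent.W645.WV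

open Pool.Agent.W203.BE (T gn ga al S_BAS S_BASN S_MEAS S_CORE)

/-- the quadratic form `∑ a_j ξ_j^2` -/
noncomputable def H {n : ℕ} (a ξ : Fin n → ℝ) : ℝ := ∑ j, a j * ξ j ^ 2

/-- `∑ ξ_j^2` -/
noncomputable def Q {n : ℕ} (ξ : Fin n → ℝ) : ℝ := ∑ j, ξ j ^ 2

/-- Fourier transform -/
noncomputable def FT {n : ℕ} (f : (Fin n → ℝ) → ℂ) (ξ : Fin n → ℝ) : ℂ :=
  ∫ y : Fin n → ℝ, cexp (-(2 * (Real.pi : ℂ) * I * ((∑ j, y j * ξ j : ℝ) : ℂ))) * f y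

/-- inverse Fourier transform -/
noncomputable def IFT {n : ℕ} (g : (Fin n → ℝ) → ℂ) (x : Fin n → ℝ) : ℂ :=
  ∫ ξ : Fin n → ℝ, g ξ * cexp (2 * (Real.pi : ℂ) * I * ((∑ j, x j * ξ j : ℝ) : ℂ))

/-- `∫ e^y Θ(y) e^{2 π i s y} dy` -/
noncomputable def MK (Θ : ℝ → ℂ) (s : ℝ) : ℂ :=
  ∫ y : ℝ, cexp (y : ℂ) * Θ y * cexp (2 * (Real.pi : ℂ) * I * ((s * y : ℝ) : ℂ))

/-- smooth, supported in `[lo, hi]`, derivatives of order `≤ K` bounded by `N` -/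
def Cls (lo hi N : ℝ) (K : ℕ) (Θ : ℝ → ℂ) : Prop :=
  ContDiff ℝ (⊤ : ℕ∞) Θ ∧ (∀ y, Θ y ≠ 0 → lo ≤ y ∧ y ≤ hi) ∧
    ∀ k : ℕ, k ≤ K → ∀ y, ‖iteratedDeriv k Θ y‖ ≤ N

/-- the oscillating symbol `χ(y) e^{2 π i r √y}` -/
noncomputable def OS (χ : ℝ → ℂ) (r : ℝ) (y : ℝ) : ℂ :=
  χ y * cexp (2 * (Real.pi : ℂ) * I * ((r * Real.sqrt y : ℝ) : ℂ))

/-- the unit box of parameters -/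
def box (n : ℕ) : Set (Fin n → ℝ) := Icc (fun _ => (1 : ℝ)) (fun _ => 2)

/-- KA. The kernel in `L^1(ds)` with a weight. -/
def S_KA : Prop := ∃ C : ℝ, 0 < C ∧ ∀ L : ℝ, 1 ≤ L → ∀ N : ℝ, 0 < N → ∀ χ : ℝ → ℂ,
  Cls (1 / 8) 8 N 2 χ → ∀ σ : ℝ, (σ = 1 ∨ σ = -1) → ∀ t ∈ Icc (1 : ℝ) 2,
    Continuous (MK (OS χ (σ * t * L))) ∧
    ∫⁻ s : ℝ, ENNReal.ofReal (Real.sqrt (1 + (s / L) ^ 2)) * ‖MK (OS χ (σ * t * L)) s‖ₑ ≤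
      ENNReal.ofReal (C * N * Real.sqrt L)

/-- KB. The kernel from `L^2(ds)` to `L^2(dt)`. -/
def S_KB : Prop := ∃ C : ℝ, 0 < C ∧ ∀ L : ℝ, 1 ≤ L → ∀ N : ℝ, 0 < N → ∀ χ : ℝ → ℂ,
  Cls (1 / 8) 8 N 2 χ → ∀ σ : ℝ, (σ = 1 ∨ σ = -1) → ∀ g : ℝ → ℂ, Measurable g →
    (∃ K : ℝ, ∀ s, ‖g s‖ ≤ K) → (∃ R : ℝ, ∀ s, R < |s| → g s = 0) →
    ∫⁻ t in Icc (1 : ℝ) 2,
        ‖∫ s : ℝ, MK (OS χ (σ * t * L)) s * ((1 + I * ((s / L : ℝ) : ℂ)) * g s)‖ₑ ^ (2 : ℝ) ≤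
      ENNReal.ofReal (C * N ^ 2 / L) * ∫⁻ s, ‖g s‖ₑ ^ (2 : ℝ)

/-- KM. Joint measurability of the kernel. -/
def S_KM : Prop := ∀ L : ℝ, 1 ≤ L → ∀ N : ℝ, 0 < N → ∀ χ : ℝ → ℂ,
  Cls (1 / 8) 8 N 2 χ → ∀ σ : ℝ, (σ = 1 ∨ σ = -1) →
    Measurable (fun q : ℝ × ℝ => MK (OS χ (σ * q.1 * L)) q.2)

/-- KER. The kernel from `L^p(ds)` to `L^p(dt)`. -/
def S_KER : Prop := ∀ p : ℝ, 2 ≤ p → ∃ C : ℝ, 0 < C ∧ ∀ L : ℝ, 1 ≤ L → ∀ N : ℝ, 0 < N →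
  ∀ χ : ℝ → ℂ, Cls (1 / 8) 8 N 2 χ → ∀ σ : ℝ, (σ = 1 ∨ σ = -1) → ∀ h : ℝ → ℂ, Measurable h →
    (∃ K : ℝ, ∀ s, ‖h s‖ ≤ K) →
    ∫⁻ t in Icc (1 : ℝ) 2, ‖∫ s : ℝ, MK (OS χ (σ * t * L)) s * h s‖ₑ ^ p ≤
      ENNReal.ofReal (C * N ^ p * L ^ (p / 2 - 2)) *
        ∫⁻ s : ℝ, ENNReal.ofReal ((1 + (s / L) ^ 2) ^ (-(p / 2))) * ‖h s‖ₑ ^ p

/-- DEC. Decay of `MK`. -/
def S_DEC : Prop := ∀ K : ℕ, ∃ C : ℝ, 0 < C ∧ ∀ N : ℝ, 0 < N → ∀ Θ : ℝ → ℂ,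
  Cls (-1) 16 N K Θ → Continuous (MK Θ) ∧ ∀ s : ℝ, ‖MK Θ s‖ ≤ C * N * (1 + |s|) ^ (-(K : ℝ))

/-- HB. The functions `s ↦ T (ga κ a_j s) f x` are bounded and measurable. -/
def S_HB : Prop := ∀ (n : ℕ) (κ : ℝ), 0 < κ → ∀ f : (Fin n → ℝ) → ℂ, Measurable f →
  Integrable f →
    Measurable (fun q : ((Fin n → ℝ) × ℝ) × (Fin n → ℝ) =>
      T (fun j => ga κ (q.1.1 j) q.1.2) f q.2) ∧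
    ∃ K : ℝ, ∀ a ∈ box n, ∀ s x, ‖T (fun j => ga κ (a j) s) f x‖ ≤ K

/-- REP. Functions of `H a` as superpositions of Gaussians. -/
def S_REP : Prop := ∀ Θ : ℝ → ℂ, Continuous Θ → (∃ R : ℝ, ∀ y, Θ y ≠ 0 → |y| ≤ R) →
  Integrable (MK Θ) → ∀ (n : ℕ) (κ : ℝ), 0 < κ → ∀ f : (Fin n → ℝ) → ℂ, Measurable f →
  Integrable f → ∀ a : Fin n → ℝ, (∀ j, 0 < a j) → ∀ x,
    IFT (fun ξ => Θ (κ * H a ξ) * FT f ξ) x =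
      ∫ s : ℝ, MK Θ s * T (fun j => ga κ (a j) s) f x

/-- YNG. Young's inequality. -/
def S_YNG : Prop := ∀ (n : ℕ) (K f : (Fin n → ℝ) → ℂ), Measurable K → Measurable f →
  ∀ p : ℝ, 1 ≤ p →
    ∫⁻ x, ‖∫ y, K (x - y) * f y‖ₑ ^ p ≤ (∫⁻ x, ‖K x‖ₑ) ^ p * ∫⁻ x, ‖f x‖ₑ ^ p

/-- AVG. The averaged Gaussian estimate integrated in `s`. -/
def S_AVG : Prop := ∀ (n : ℕ) (p : ℝ), 2 ≤ p → p ≤ 4 → ∃ C : ℝ, 0 < C ∧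
  ∀ κ : ℝ, 0 < κ → ∀ f : (Fin n → ℝ) → ℂ, Measurable f → Integrable f →
    (∀ s : ℝ, ∫⁻ a in box n, ∫⁻ x, ‖T (fun j => ga κ (a j) s) f x‖ₑ ^ p ≤
      ENNReal.ofReal (C * (1 + Real.log (1 + |s|)) ^ n) * ∫⁻ x, ‖f x‖ₑ ^ p) ∧
    ∀ L : ℝ, 1 ≤ L →
      ∫⁻ a in box n, ∫⁻ x, ∫⁻ s : ℝ, ENNReal.ofReal ((1 + (s / L) ^ 2)⁻¹) *
          ‖T (fun j => ga κ (a j) s) f x‖ₑ ^ p ≤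
        ENNReal.ofReal (C * L * (1 + Real.log L) ^ n) * ∫⁻ x, ‖f x‖ₑ ^ p

/-- LOC. The frequency localised estimate in `L^p(dt)`. -/
def S_LOC : Prop := ∀ (n : ℕ) (p : ℝ), 2 ≤ p → p ≤ 4 → ∃ C : ℝ, 0 < C ∧
  ∀ L : ℝ, 1 ≤ L → ∀ N : ℝ, 0 < N → ∀ χ : ℝ → ℂ, Cls (1 / 8) 8 N 2 χ →
  ∀ σ : ℝ, (σ = 1 ∨ σ = -1) → ∀ f : (Fin n → ℝ) → ℂ, Measurable f → Integrable f →
    ∫⁻ a in box n, ∫⁻ t in Icc (1 : ℝ) 2, ∫⁻ x,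
        ‖IFT (fun ξ => OS χ (σ * t * L) ((L ^ 2)⁻¹ * H a ξ) * FT f ξ) x‖ₑ ^ p ≤
      ENNReal.ofReal (C * N ^ p * (L ^ (p / 2 - 1) * (1 + Real.log L) ^ n)) * ∫⁻ x, ‖f x‖ₑ ^ p

/-- LOC2. The frequency localised estimate in `L^2(dt)`. -/
def S_LOC2 : Prop := ∀ (n : ℕ) (p : ℝ), 2 ≤ p → p ≤ 4 → ∃ C : ℝ, 0 < C ∧
  ∀ L : ℝ, 1 ≤ L → ∀ N : ℝ, 0 < N → ∀ χ : ℝ → ℂ, Cls (1 / 8) 8 N 2 χ →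
  ∀ σ : ℝ, (σ = 1 ∨ σ = -1) → ∀ f : (Fin n → ℝ) → ℂ, Measurable f → Integrable f →
    ∫⁻ a in box n, ∫⁻ x, (∫⁻ t in Icc (1 : ℝ) 2,
        ‖IFT (fun ξ => OS χ (σ * t * L) ((L ^ 2)⁻¹ * H a ξ) * FT f ξ) x‖ₑ ^ (2 : ℝ)) ^ (p / 2) ≤
      ENNReal.ofReal (C * N ^ p * (1 + Real.log L) ^ n) * ∫⁻ x, ‖f x‖ₑ ^ p

/-- LOW. Low frequencies. -/
def S_LOW : Prop := ∀ (n : ℕ) (p : ℝ), 2 ≤ p → p ≤ 4 → ∃ C : ℝ, 0 < C ∧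
  ∀ N : ℝ, 0 < N → ∀ Θ : ℝ → ℂ, Cls (-1) 16 N 2 Θ →
  ∀ f : (Fin n → ℝ) → ℂ, Measurable f → Integrable f →
    ∫⁻ a in box n, ∫⁻ x, ‖IFT (fun ξ => Θ (H a ξ) * FT f ξ) x‖ₑ ^ p ≤
      ENNReal.ofReal (C * N ^ p) * ∫⁻ x, ‖f x‖ₑ ^ p

/-- `sin (2 π t √y) / (2 π √y)` -/
noncomputable def sn (t y : ℝ) : ℝ :=
  if y = 0 then t else Real.sin (2 * Real.pi * t * Real.sqrt y) / (2 * Real.pi * Real.sqrt y)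

/-- SMQ. The symbols of the wave equation are smooth at the origin. -/
def S_SMQ : Prop := ∀ χ : ℝ → ℂ, ContDiff ℝ (⊤ : ℕ∞) χ → (∀ y, χ y ≠ 0 → -1 ≤ y ∧ y ≤ 16) →
  ∃ N : ℝ, 0 < N ∧ ∀ t ∈ Icc (1 : ℝ) 2, ∃ Θ Θ' : ℝ → ℂ, Cls (-1) 16 N 2 Θ ∧ Cls (-1) 16 N 2 Θ' ∧
    (∀ y, 0 ≤ y → Θ y = χ y * ((Real.cos (2 * Real.pi * t * Real.sqrt y) : ℝ) : ℂ)) ∧
    (∀ y, 0 ≤ y → Θ' y = χ y * ((sn t y : ℝ) : ℂ))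

/-- MUL. Smooth compactly supported functions of `κ |ξ|^2` are multipliers of `L^p`. -/
def S_MUL : Prop := ∀ n : ℕ, ∃ C : ℝ, 0 < C ∧ ∀ N : ℝ, 0 < N → ∀ Θ : ℝ → ℂ,
  Cls (-1) 16 N (n + 2) Θ → ∀ κ : ℝ, 0 < κ → ∀ f : (Fin n → ℝ) → ℂ, Measurable f →
  Integrable f → ∃ f' : (Fin n → ℝ) → ℂ, Measurable f' ∧ Integrable f' ∧
    (∀ ξ, FT f' ξ = Θ (κ * Q ξ) * FT f ξ) ∧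
    ∀ p : ℝ, 1 ≤ p → ∫⁻ x, ‖f' x‖ₑ ^ p ≤ ENNReal.ofReal ((C * N) ^ p) * ∫⁻ x, ‖f x‖ₑ ^ p

/-- a dyadic partition of unity on `[0, ∞)` -/
def PU (ψ₀ ψ ψ' : ℝ → ℂ) (N : ℝ) : Prop :=
  0 < N ∧ ContDiff ℝ (⊤ : ℕ∞) ψ₀ ∧ (∀ y, ψ₀ y ≠ 0 → -1 ≤ y ∧ y ≤ 4) ∧ (∀ y, ‖ψ₀ y‖ ≤ 1) ∧
  (∀ y, 0 ≤ y → y ≤ 1 → ψ₀ y = 1) ∧
  Cls (1 / 8) 8 N 2 ψ ∧ (∀ y, ψ y ≠ 0 → 1 / 4 ≤ y ∧ y ≤ 4) ∧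
  (∀ y, 0 ≤ y → ψ y = ψ₀ y - ψ₀ (4 * y)) ∧
  Cls (1 / 8) 8 N 2 ψ' ∧ (∀ y, 0 ≤ y → ψ' y = ψ y / ((2 * Real.pi * Real.sqrt y : ℝ) : ℂ))

/-- PU1. Existence of the partition of unity. -/
def S_PU1 : Prop := ∃ (ψ₀ ψ ψ' : ℝ → ℂ) (N : ℝ), PU ψ₀ ψ ψ' N

/-- PU2. The cut-off functions for the Bessel potentials. -/
def S_PU2 : Prop := ∀ (K : ℕ) (ρ : ℝ), ∃ N : ℝ, 0 < N ∧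
  (∃ Θ : ℝ → ℂ, Cls (-1) 16 N K Θ ∧
    ∀ y, 0 ≤ y → y ≤ 4 → Θ y = (((1 + 4 * Real.pi ^ 2 * y) ^ ρ : ℝ) : ℂ)) ∧
  ∀ κ : ℝ, 0 < κ → κ ≤ 1 → ∃ Θ : ℝ → ℂ, Cls (-1) 16 N K Θ ∧
    ∀ y, 1 / 8 ≤ y → y ≤ 4 → Θ y = (((κ + 4 * Real.pi ^ 2 * y) ^ ρ : ℝ) : ℂ)

/-- Bessel potential `(1 - Δ)^{s/2} u` -/
noncomputable def J {n : ℕ} (s : ℝ) (u : (Fin n → ℝ) → ℂ) : (Fin n → ℝ) → ℂ :=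
  IFT (fun ξ => (((1 + 4 * Real.pi ^ 2 * Q ξ) ^ (s / 2) : ℝ) : ℂ) * FT u ξ)

/-- SCH. Schwartz functions and Bessel potentials. -/
def S_SCH : Prop := ∀ (n : ℕ) (u : SchwartzMap (Fin n → ℝ) ℂ) (s : ℝ),
  Continuous (J s u) ∧ Integrable (J s u) ∧ Continuous (FT (⇑u)) ∧ Integrable (FT (⇑u)) ∧
  (∃ K : ℝ, ∀ ξ, ‖FT (⇑u) ξ‖ ≤ K) ∧ Integrable (fun x => u x) ∧
  (∀ ξ, FT (J s u) ξ = (((1 + 4 * Real.pi ^ 2 * Q ξ) ^ (s / 2) : ℝ) : ℂ) * FT u ξ)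

/-- the solution of `∂_t^2 w = ∑ a_j ∂_j^2 w` with data `u₀, u₁`, frequencies cut off by `m` -/
noncomputable def Wm {n : ℕ} (m : ℝ → ℂ) (u₀ u₁ : (Fin n → ℝ) → ℂ) (a : Fin n → ℝ) (t : ℝ) :
    (Fin n → ℝ) → ℂ :=
  IFT (fun ξ => m (H a ξ) * (((Real.cos (2 * Real.pi * t * Real.sqrt (H a ξ)) : ℝ) : ℂ) * FT u₀ ξ +
    ((sn t (H a ξ) : ℝ) : ℂ) * FT u₁ ξ))

/-- the solution of `∂_t^2 w = ∑ a_j ∂_j^2 w` with data `u₀, u₁` -/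
noncomputable def W {n : ℕ} (u₀ u₁ : (Fin n → ℝ) → ℂ) (a : Fin n → ℝ) (t : ℝ) :
    (Fin n → ℝ) → ℂ :=
  IFT (fun ξ => ((Real.cos (2 * Real.pi * t * Real.sqrt (H a ξ)) : ℝ) : ℂ) * FT u₀ ξ +
    ((sn t (H a ξ) : ℝ) : ℂ) * FT u₁ ξ)

/-- the norm of the data -/
noncomputable def DN {n : ℕ} (p s : ℝ) (u₀ u₁ : (Fin n → ℝ) → ℂ) : ℝ≥0∞ :=
  (∫⁻ x, ‖J s u₀ x‖ₑ ^ p) + ∫⁻ x, ‖J (s - 1) u₁ x‖ₑ ^ p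

/-- WM. Joint measurability and integrability of the symbols. -/
def S_WM : Prop := ∀ (n : ℕ) (u₀ u₁ : SchwartzMap (Fin n → ℝ) ℂ) (m : ℝ → ℂ), Measurable m →
  (∀ y, ‖m y‖ ≤ 1) →
    Measurable (fun q : ((Fin n → ℝ) × ℝ) × (Fin n → ℝ) =>
      Wm m (⇑u₀) (⇑u₁) q.1.1 q.1.2 q.2) ∧
    Measurable (fun q : ((Fin n → ℝ) × ℝ) × (Fin n → ℝ) => W (⇑u₀) (⇑u₁) q.1.1 q.1.2 q.2) ∧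
    ∀ (a : Fin n → ℝ) (t : ℝ), 0 ≤ t →
      Integrable (fun ξ => ((Real.cos (2 * Real.pi * t * Real.sqrt (H a ξ)) : ℝ) : ℂ) *
        FT (⇑u₀) ξ + ((sn t (H a ξ) : ℝ) : ℂ) * FT (⇑u₁) ξ)

/-- HIGH. The dyadic pieces. -/
def S_HIGH : Prop := ∀ (ψ₀ ψ ψ' : ℝ → ℂ) (N : ℝ), PU ψ₀ ψ ψ' N → ∀ (n : ℕ) (p s : ℝ), 2 ≤ p →
  p ≤ 4 → ∃ C : ℝ, 0 < C ∧ ∀ u₀ u₁ : SchwartzMap (Fin n → ℝ) ℂ, ∀ k : ℕ, 1 ≤ k →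
    (∫⁻ a in box n, ∫⁻ t in Icc (1 : ℝ) 2, ∫⁻ x,
        ‖Wm (fun y => ψ (((4 : ℝ) ^ k)⁻¹ * y)) (⇑u₀) (⇑u₁) a t x‖ₑ ^ p ≤
      ENNReal.ofReal (C * ((2 : ℝ) ^ ((k : ℝ) * (p / 2 - 1 - p * s)) * (1 + (k : ℝ)) ^ n)) *
        DN p s (⇑u₀) (⇑u₁)) ∧
    (∫⁻ a in box n, ∫⁻ x, (∫⁻ t in Icc (1 : ℝ) 2,
        ‖Wm (fun y => ψ (((4 : ℝ) ^ k)⁻¹ * y)) (⇑u₀) (⇑u₁) a t x‖ₑ ^ (2 : ℝ)) ^ (p / 2) ≤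
      ENNReal.ofReal (C * ((2 : ℝ) ^ (-((k : ℝ) * (p * s))) * (1 + (k : ℝ)) ^ n)) *
        DN p s (⇑u₀) (⇑u₁))

/-- ZERO. The low frequency piece. -/
def S_ZERO : Prop := ∀ (ψ₀ ψ ψ' : ℝ → ℂ) (N : ℝ), PU ψ₀ ψ ψ' N → ∀ (n : ℕ) (p s : ℝ), 2 ≤ p →
  p ≤ 4 → ∃ C : ℝ, 0 < C ∧ ∀ u₀ u₁ : SchwartzMap (Fin n → ℝ) ℂ,
    (∫⁻ a in box n, ∫⁻ t in Icc (1 : ℝ) 2, ∫⁻ x, ‖Wm ψ₀ (⇑u₀) (⇑u₁) a t x‖ₑ ^ p ≤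
      ENNReal.ofReal C * DN p s (⇑u₀) (⇑u₁)) ∧
    (∫⁻ a in box n, ∫⁻ x, (∫⁻ t in Icc (1 : ℝ) 2,
        ‖Wm ψ₀ (⇑u₀) (⇑u₁) a t x‖ₑ ^ (2 : ℝ)) ^ (p / 2) ≤
      ENNReal.ofReal C * DN p s (⇑u₀) (⇑u₁))

/-- MAIN, first form. -/
def S_MAINP : Prop := ∀ (n : ℕ) (p s : ℝ), 2 ≤ p → p ≤ 4 → 1 / 2 - 1 / p < s →
  ∃ C : ℝ, 0 < C ∧ ∀ u₀ u₁ : SchwartzMap (Fin n → ℝ) ℂ,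
    ∫⁻ a in box n, ∫⁻ t in Icc (1 : ℝ) 2, ∫⁻ x, ‖W (⇑u₀) (⇑u₁) a t x‖ₑ ^ p ≤
      ENNReal.ofReal C * DN p s (⇑u₀) (⇑u₁)

/-- MAIN, square function form. -/
def S_MAIN2 : Prop := ∀ (n : ℕ) (p s : ℝ), 2 ≤ p → p ≤ 4 → 0 < s →
  ∃ C : ℝ, 0 < C ∧ ∀ u₀ u₁ : SchwartzMap (Fin n → ℝ) ℂ,
    ∫⁻ a in box n, ∫⁻ x, (∫⁻ t in Icc (1 : ℝ) 2, ‖W (⇑u₀) (⇑u₁) a t x‖ₑ ^ (2 : ℝ)) ^ (p / 2) ≤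
      ENNReal.ofReal C * DN p s (⇑u₀) (⇑u₁)

/-- DIL. Dilated data. -/
def S_DIL : Prop := ∀ (n : ℕ) (u₀ u₁ : (Fin n → ℝ) → ℂ) (a : Fin n → ℝ), (∀ j, 0 < a j) →
  ∀ (t : ℝ) (x : Fin n → ℝ),
    W (fun y => u₀ (fun j => Real.sqrt (a j) * y j)) (fun y => u₁ (fun j => Real.sqrt (a j) * y j))
      (fun _ => 1) t x = W u₀ u₁ a t (fun j => Real.sqrt (a j) * x j)

end Pool.Agent.W645.WV
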