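import Pool.Agent.W645.WV.Stm
import Pool.Agent.W203.BE.Ext

/-!
# Local smoothing on average over dilations: the form with dilated data
-/

set_option autoImplicit false

open MeasureTheory Set Complex
open scoped ENNReal

namespace Pool.Agent.W645.WV

open Pool.Agent.W203.BE (dil lintegral_dil)

variable {n : ℕ}

/-- dilated function -/
noncomputable def dl (a : Fin n → ℝ) (u : (Fin n → ℝ) → ℂ) : (Fin n → ℝ) → ℂ :=
  fun y => u (fun j => Real.sqrt (a j) * y j)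

lemma sqrt_pos_of_box {a : Fin n → ℝ} (ha : a ∈ box n) (j : Fin n) : 0 < Real.sqrt (a j) :=
  Real.sqrt_pos.2 (lt_of_lt_of_le one_pos (ha.1 j))

lemma dil_le {a : Fin n → ℝ} (ha : a ∈ box n) (g : (Fin n → ℝ) → ℝ≥0∞) :
    ∫⁻ x : Fin n → ℝ, g (fun j => Real.sqrt (a j) * x j) ≤ ∫⁻ x, g x := by
  have h := lintegral_dil (fun j => Real.sqrt (a j)) (fun j => sqrt_pos_of_box ha j) g
  rw [h]
  have h1 : (1 : ℝ) ≤ ∏ j, Real.sqrt (a j) := by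
    refine Finset.one_le_prod fun j _ => ?_
    rw [show (1 : ℝ) = Real.sqrt 1 by simp]
    exact Real.sqrt_le_sqrt (ha.1 j)
  have h2 : (1 : ℝ≥0∞) ≤ ENNReal.ofReal (∏ j, Real.sqrt (a j)) := by
    rw [← ENNReal.ofReal_one]
    exact ENNReal.ofReal_le_ofReal h1
  calc ∫⁻ x : Fin n → ℝ, g (fun j => Real.sqrt (a j) * x j)
      = 1 * ∫⁻ x : Fin n → ℝ, g (fun j => Real.sqrt (a j) * x j) := (one_mul _).symm
    _ ≤ _ := mul_le_mul' h2 le_rfl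

lemma W_dl (hD : S_DIL) {a : Fin n → ℝ} (ha : a ∈ box n) (u₀ u₁ : (Fin n → ℝ) → ℂ) (t : ℝ)
    (x : Fin n → ℝ) :
    W (dl a u₀) (dl a u₁) (fun _ => 1) t x = W u₀ u₁ a t (fun j => Real.sqrt (a j) * x j) :=
  hD n u₀ u₁ a (fun j => lt_of_lt_of_le one_pos (ha.1 j)) t x

theorem mainP_dil (hD : S_DIL) (hM : S_MAINP) (p s : ℝ) (hp : 2 ≤ p) (hp4 : p ≤ 4)
    (hs : 1 / 2 - 1 / p < s) : ∃ C : ℝ, 0 < C ∧ ∀ u₀ u₁ : SchwartzMap (Fin n → ℝ) ℂ,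
    ∫⁻ a in box n, ∫⁻ t in Icc (1 : ℝ) 2, ∫⁻ x,
        ‖W (dl a (⇑u₀)) (dl a (⇑u₁)) (fun _ => 1) t x‖ₑ ^ p ≤
      ENNReal.ofReal C * DN p s (⇑u₀) (⇑u₁) := by
  obtain ⟨C, hC, h⟩ := hM n p s hp hp4 hs
  refine ⟨C, hC, fun u₀ u₁ => le_trans ?_ (h u₀ u₁)⟩
  refine setLIntegral_mono' measurableSet_Icc fun a ha => ?_
  refine lintegral_mono fun t => ?_
  have : ∀ x, ‖W (dl a (⇑u₀)) (dl a (⇑u₁)) (fun _ => 1) t x‖ₑ ^ p =
      (fun x => ‖W (⇑u₀) (⇑u₁) a t x‖ₑ ^ p) (fun j => Real.sqrt (a j) * x j) := by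
    intro x
    rw [W_dl hD ha]
  simp only [this]
  exact dil_le ha _

theorem main2_dil (hD : S_DIL) (hM : S_MAIN2) (p s : ℝ) (hp : 2 ≤ p) (hp4 : p ≤ 4)
    (hs : 0 < s) : ∃ C : ℝ, 0 < C ∧ ∀ u₀ u₁ : SchwartzMap (Fin n → ℝ) ℂ,
    ∫⁻ a in box n, ∫⁻ x, (∫⁻ t in Icc (1 : ℝ) 2,
        ‖W (dl a (⇑u₀)) (dl a (⇑u₁)) (fun _ => 1) t x‖ₑ ^ (2 : ℝ)) ^ (p / 2) ≤
      ENNReal.ofReal C * DN p s (⇑u₀) (⇑u₁) := by
  obtain ⟨C, hC, h⟩ := hM n p s hp hp4 hs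
  refine ⟨C, hC, fun u₀ u₁ => le_trans ?_ (h u₀ u₁)⟩
  refine setLIntegral_mono' measurableSet_Icc fun a ha => ?_
  have : ∀ x, (∫⁻ t in Icc (1 : ℝ) 2,
      ‖W (dl a (⇑u₀)) (dl a (⇑u₁)) (fun _ => 1) t x‖ₑ ^ (2 : ℝ)) ^ (p / 2) =
      (fun x => (∫⁻ t in Icc (1 : ℝ) 2, ‖W (⇑u₀) (⇑u₁) a t x‖ₑ ^ (2 : ℝ)) ^ (p / 2))
        (fun j => Real.sqrt (a j) * x j) := by
    intro x
    simp only [W_dl hD ha]
  simp only [this]
  exact dil_le ha _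

/-- the set of dilations with a large norm is small -/
theorem exceptional (hD : S_DIL) (hM : S_MAINP) (hW : S_WM) (p s : ℝ) (hp : 2 ≤ p) (hp4 : p ≤ 4)
    (hs : 1 / 2 - 1 / p < s) : ∃ C : ℝ, 0 < C ∧ ∀ ε : ℝ, 0 < ε →
    ∀ u₀ u₁ : SchwartzMap (Fin n → ℝ) ℂ,
    volume {a : Fin n → ℝ | a ∈ box n ∧ ¬ ∫⁻ t in Icc (1 : ℝ) 2, ∫⁻ x,
        ‖W (dl a (⇑u₀)) (dl a (⇑u₁)) (fun _ => 1) t x‖ₑ ^ p ≤
      ENNReal.ofReal (C / ε) * DN p s (⇑u₀) (⇑u₁)} ≤ ENNReal.ofReal ε := by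
  obtain ⟨C, hC, h⟩ := hM n p s hp hp4 hs
  refine ⟨C, hC, fun ε hε u₀ u₁ => ?_⟩
  set D := DN p s (⇑u₀) (⇑u₁) with hDdef
  set E : (Fin n → ℝ) → ℝ≥0∞ := fun a =>
    ∫⁻ t in Icc (1 : ℝ) 2, ∫⁻ x, ‖W (⇑u₀) (⇑u₁) a t x‖ₑ ^ p with hE
  have hEm : Measurable E := by
    obtain ⟨_, h2, _⟩ := hW n u₀ u₁ (fun _ => 1) measurable_const (fun y => by simp)
    have h3 : Measurable (fun q : (Fin n → ℝ) × ℝ => ∫⁻ x, ‖W (⇑u₀) (⇑u₁) q.1 q.2 x‖ₑ ^ p) :=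
      (h2.enorm.pow_const p).lintegral_prod_right'
    exact h3.lintegral_prod_right'
  have hsub : {a : Fin n → ℝ | a ∈ box n ∧ ¬ ∫⁻ t in Icc (1 : ℝ) 2, ∫⁻ x,
        ‖W (dl a (⇑u₀)) (dl a (⇑u₁)) (fun _ => 1) t x‖ₑ ^ p ≤ ENNReal.ofReal (C / ε) * D} ⊆
      {a | a ∈ box n ∧ ENNReal.ofReal (C / ε) * D < E a} := by
    rintro a ⟨ha, hlt⟩
    refine ⟨ha, lt_of_lt_of_le (not_le.1 hlt) ?_⟩
    refine lintegral_mono fun t => ?_
    have : ∀ x, ‖W (dl a (⇑u₀)) (dl a (⇑u₁)) (fun _ => 1) t x‖ₑ ^ p =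
        (fun x => ‖W (⇑u₀) (⇑u₁) a t x‖ₑ ^ p) (fun j => Real.sqrt (a j) * x j) := by
      intro x
      rw [W_dl hD ha]
    simp only [this]
    exact dil_le ha _
  refine (measure_mono hsub).trans ?_
  have hint : ∫⁻ a in box n, E a ≤ ENNReal.ofReal C * D := h u₀ u₁
  have hbm : MeasurableSet (box n) := measurableSet_Icc
  have hset : volume {a | a ∈ box n ∧ ENNReal.ofReal (C / ε) * D < E a} =
      (volume.restrict (box n)) {a | ENNReal.ofReal (C / ε) * D < E a} := by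
    rw [Measure.restrict_apply' hbm]
    congr 1
    ext a
    exact and_comm
  rw [hset]
  by_cases hD0 : D = 0
  · rw [hD0, mul_zero] at hint ⊢
    have h0 : ∫⁻ a in box n, E a = 0 := le_antisymm hint zero_le
    rw [lintegral_eq_zero_iff hEm] at h0
    have h1 : (volume.restrict (box n)) {a | 0 < E a} = 0 := by
      have h2 : ∀ᵐ a ∂(volume.restrict (box n)), ¬ 0 < E a := by
        filter_upwards [h0] with a ha
        rw [ha]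
        simp
      have h3 := ae_iff.1 h2
      simp only [not_not] at h3
      exact h3
    rw [h1]
    exact zero_le
  by_cases hDt : D = ⊤
  · have h1 : ENNReal.ofReal (C / ε) * D = ⊤ := by
      rw [hDt]
      exact ENNReal.mul_top (by simpa using div_pos hC hε)
    rw [h1]
    simp
  have hCε : 0 < C / ε := div_pos hC hε
  have hM0 : ENNReal.ofReal (C / ε) * D ≠ 0 := mul_ne_zero (by simpa using hCε) hD0
  have hMt : ENNReal.ofReal (C / ε) * D ≠ ⊤ := ENNReal.mul_ne_top ENNReal.ofReal_ne_top hDt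
  calc (volume.restrict (box n)) {a | ENNReal.ofReal (C / ε) * D < E a}
      ≤ (volume.restrict (box n)) {a | ENNReal.ofReal (C / ε) * D ≤ E a} :=
        measure_mono (fun a (ha : ENNReal.ofReal (C / ε) * D < E a) =>
          (show ENNReal.ofReal (C / ε) * D ≤ E a from le_of_lt ha))
    _ ≤ (∫⁻ a in box n, E a) / (ENNReal.ofReal (C / ε) * D) :=
        meas_ge_le_lintegral_div hEm.aemeasurable hM0 hMt
    _ ≤ (ENNReal.ofReal C * D) / (ENNReal.ofReal (C / ε) * D) := by gcongr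
    _ = ENNReal.ofReal ε := by
        rw [ENNReal.mul_div_mul_right _ _ hD0 hDt, ← ENNReal.ofReal_div_of_pos hCε]
        congr 1
        field_simp

end Pool.Agent.W645.WV
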