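import Pool.Agent.W203.BE.All
import Pool.Agent.W645.WV.Fin
import Pool.Agent.W32.WV.KA
import Pool.Agent.W554.WV.KB
import Pool.Agent.W216.WV.KM
import Pool.Agent.W216.WV.KER
import Pool.Agent.W688.WV.DEC
import Pool.Agent.W196.WV.HB
import Pool.Agent.W701.WV.Rep
import Pool.Agent.W977.WV.Yng
import Pool.Agent.W947.WV.Avg
import Pool.Agent.W347.WV.Loc
import Pool.Agent.W398.WV.Loc2
import Pool.Agent.W636.WV.Low
import Pool.Agent.W85.WV.Smq
import Pool.Agent.W358.WV.Mul
import Pool.Agent.W372.WV.PU1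
import Pool.Agent.W382.WV.PU2
import Pool.Agent.W591.WV.Sch
import Pool.Agent.W319.WV.WM
import Pool.Agent.W348.WV.Mainp
import Pool.Agent.W565.WV.Main2
import Pool.Agent.W481.WV.Dil

/-!
# Local smoothing on average over dilations: assembly
-/

set_option autoImplicit false

namespace Pool.Agent.W645.WV

open Pool.Agent.W203.BE (S_BAS S_BASN S_MEAS S_CORE)

theorem bas : S_BAS := Pool.Agent.W240.BE.bas
theorem basn : S_BASN := Pool.Agent.W345.BE.basn bas
theorem meas : S_MEAS := Pool.Agent.W249.BE.meas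

theorem core : S_CORE :=
  Pool.Agent.W975.BE.core basn meas (Pool.Agent.W688.BE.l2 bas)
    (Pool.Agent.W311.BE.l4 bas (Pool.Agent.W125.BE.yng bas)
      (Pool.Agent.W616.BE.l4b bas (Pool.Agent.W125.BE.yng bas)
        (Pool.Agent.W688.BE.l4a (Pool.Agent.W918.BE.sqT bas (Pool.Agent.W688.BE.l2 bas))
          Pool.Agent.W351.BE.pl)))
    (Pool.Agent.W290.BE.iter bas basn meas)

theorem hb : S_HB := Pool.Agent.W196.WV.hb bas meas
theorem rep : S_REP := Pool.Agent.W701.WV.rep basn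
theorem ker : S_KER := Pool.Agent.W216.WV.ker Pool.Agent.W32.WV.ka Pool.Agent.W554.WV.kb Pool.Agent.W216.WV.km
theorem avg : S_AVG :=
  Pool.Agent.W947.WV.avg bas basn meas core hb Pool.Agent.W977.WV.yng
theorem loc : S_LOC :=
  Pool.Agent.W347.WV.loc Pool.Agent.W32.WV.ka Pool.Agent.W216.WV.km ker hb rep avg
theorem loc2 : S_LOC2 :=
  Pool.Agent.W398.WV.loc2 Pool.Agent.W32.WV.ka Pool.Agent.W216.WV.km ker hb rep avg
theorem low : S_LOW := Pool.Agent.W636.WV.low Pool.Agent.W688.WV.dec hb rep avg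
theorem mul : S_MUL :=
  Pool.Agent.W358.WV.Mul.mul bas basn Pool.Agent.W688.WV.dec Pool.Agent.W977.WV.yng
theorem wm : S_WM := Pool.Agent.W319.WV.wm Pool.Agent.W591.WV.sch
theorem dil' : S_DIL := Pool.Agent.W481.WV.t_DIL

end Pool.Agent.W645.WV
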