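import Pool.Agent.W645.WV.Fin

/-!
# Local smoothing on average over dilations: mean inequality and exceptional set together
-/

set_option autoImplicit false

open MeasureTheory Set Complex
open scoped ENNReal

namespace Pool.Agent.W645.WV

variable {n : ℕ}

theorem both (hD : S_DIL) (hM : S_MAINP) (hW : S_WM) (p s : ℝ) (hp : 2 ≤ p) (hp4 : p ≤ 4)
    (hs : 1 / 2 - 1 / p < s) : ∃ C : ℝ, 0 < C ∧ ∀ u₀ u₁ : SchwartzMap (Fin n → ℝ) ℂ,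
    (∫⁻ a in box n, ∫⁻ t in Icc (1 : ℝ) 2, ∫⁻ x,
        ‖W (dl a (⇑u₀)) (dl a (⇑u₁)) (fun _ => 1) t x‖ₑ ^ p ≤
      ENNReal.ofReal C * DN p s (⇑u₀) (⇑u₁)) ∧
    ∀ ε : ℝ, 0 < ε →
    volume {a : Fin n → ℝ | a ∈ box n ∧ ¬ ∫⁻ t in Icc (1 : ℝ) 2, ∫⁻ x,
        ‖W (dl a (⇑u₀)) (dl a (⇑u₁)) (fun _ => 1) t x‖ₑ ^ p ≤
      ENNReal.ofReal (C / ε) * DN p s (⇑u₀) (⇑u₁)} ≤ ENNReal.ofReal ε := by
  obtain ⟨C1, hC1, h1⟩ := mainP_dil (n := n) hD hM p s hp hp4 hs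
  obtain ⟨C2, hC2, h2⟩ := exceptional (n := n) hD hM hW p s hp hp4 hs
  refine ⟨max C1 C2, lt_max_of_lt_left hC1, fun u₀ u₁ => ⟨?_, fun ε hε => ?_⟩⟩
  · refine (h1 u₀ u₁).trans ?_
    gcongr
    exact le_max_left _ _
  · refine (measure_mono ?_).trans (h2 ε hε u₀ u₁)
    rintro a ⟨ha, hn⟩
    refine ⟨ha, fun hle => hn (hle.trans ?_)⟩
    gcongr
    exact le_max_right _ _

end Pool.Agent.W645.WV
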