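import Pool.Agent.W645.WV.All
import Pool.Agent.W645.WV.Fin2
import Pool.Agent.W856.WV.High
import Pool.Agent.W154.WV.Zero

/-!
# Local smoothing on average over dilations: main theorems
-/

set_option autoImplicit false

open MeasureTheory Set Complex
open scoped ENNReal

namespace Pool.Agent.W645.WV

theorem high : S_HIGH := Pool.Agent.W856.WV.high loc loc2 mul Pool.Agent.W382.WV.PU2.pu2 Pool.Agent.W591.WV.sch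

theorem zero : S_ZERO := Pool.Agent.W154.WV.Zero.zero low Pool.Agent.W85.WV.smq mul
  Pool.Agent.W382.WV.PU2.pu2 Pool.Agent.W591.WV.sch wm

theorem mainp : S_MAINP := Pool.Agent.W348.WV.mainp Pool.Agent.W372.WV.pu1 high zero wm

theorem main2 : S_MAIN2 := Pool.Agent.W565.WV.main2 Pool.Agent.W372.WV.pu1 high zero wm

variable {n : ℕ}

theorem final1 (p s : ℝ) (hp : 2 ≤ p) (hp4 : p ≤ 4)
    (hs : 1 / 2 - 1 / p < s) : ∃ C : ℝ, 0 < C ∧ ∀ u₀ u₁ : SchwartzMap (Fin n → ℝ) ℂ,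
    (∫⁻ a in box n, ∫⁻ t in Icc (1 : ℝ) 2, ∫⁻ x,
        ‖W (dl a (⇑u₀)) (dl a (⇑u₁)) (fun _ => 1) t x‖ₑ ^ p ≤
      ENNReal.ofReal C * DN p s (⇑u₀) (⇑u₁)) ∧
    ∀ ε : ℝ, 0 < ε →
    volume {a : Fin n → ℝ | a ∈ box n ∧ ¬ ∫⁻ t in Icc (1 : ℝ) 2, ∫⁻ x,
        ‖W (dl a (⇑u₀)) (dl a (⇑u₁)) (fun _ => 1) t x‖ₑ ^ p ≤
      ENNReal.ofReal (C / ε) * DN p s (⇑u₀) (⇑u₁)} ≤ ENNReal.ofReal ε :=
  both dil' mainp wm p s hp hp4 hs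

theorem final2 (p s : ℝ) (hp : 2 ≤ p) (hp4 : p ≤ 4)
    (hs : 0 < s) : ∃ C : ℝ, 0 < C ∧ ∀ u₀ u₁ : SchwartzMap (Fin n → ℝ) ℂ,
    ∫⁻ a in box n, ∫⁻ x, (∫⁻ t in Icc (1 : ℝ) 2,
        ‖W (dl a (⇑u₀)) (dl a (⇑u₁)) (fun _ => 1) t x‖ₑ ^ (2 : ℝ)) ^ (p / 2) ≤
      ENNReal.ofReal C * DN p s (⇑u₀) (⇑u₁) :=
  main2_dil dil' main2 p s hp hp4 hs

end Pool.Agent.W645.WV
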